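import Mathlib
import Pool.Agent.MP_669436_co.Bridge

set_option autoImplicit false

open Pool.Agent.MP_669436_co

namespace Pool.Agent.Results.MP_669436_co.RadiusBound

/-- The graph of a simple arrangement of `n ≥ 2` pseudolines has radius at most
`⌊3 (n - 1) / 4⌋`. -/
theorem result (n : ℕ) (hn : 2 ≤ n) (γ : Fin n → ℝ → EuclideanSpace ℝ (Fin 2))
    (h : IsSimpleArrangement γ) :
    (arrangementGraph γ).radius ≤ ((3 * (n - 1) / 4 : ℕ) : ℕ∞) :=
  radius_le hn γ h

end Pool.Agent.Results.MP_669436_co.RadiusBound
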